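import Pool.Agent.BKW.Stmts

set_option autoImplicit false

/-! Squad BKW, row PAR: the parameters. -/

namespace Pool.Agent.BKW.H74

open Real Pool.Agent.BKW

/-- what follows from the lower bound for `p` -/
lemma big (n : ℕ) (hn : 2 ≤ n) (p l : ℝ) (hl : 1 ≤ l) (hp : (2 : ℝ) ^ (20 * n ^ 3) * l ≤ p) :
    (4 : ℝ) ^ 18 * (n : ℝ) ^ 2 * l ≤ p ∧ (2 : ℝ) ^ (2 * n ^ 2) ≤ p ∧
      308 * (n : ℝ) ^ 2 * log p ≤ p ∧ 1 ≤ log p := by
  have hn1 : 1 ≤ n := by omega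
  have h2n : (n : ℝ) ≤ 2 ^ n := by exact_mod_cast (Nat.lt_two_pow_self (n := n)).le
  have h4 : (4 : ℝ) ≤ 2 ^ n := by
    calc (4 : ℝ) = 2 ^ 2 := by norm_num
      _ ≤ 2 ^ n := pow_le_pow_right₀ (by norm_num) hn
  have hn0 : (0 : ℝ) ≤ n := Nat.cast_nonneg n
  have hM0 : (0 : ℝ) ≤ 2 ^ n := by positivity
  have hM : ((2 : ℝ) ^ n) ^ 20 ≤ 2 ^ (20 * n ^ 3) := by
    rw [← pow_mul]
    apply pow_le_pow_right₀ (by norm_num)
    have : n ^ 1 ≤ n ^ 3 := Nat.pow_le_pow_right hn1 (by norm_num)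
    rw [pow_one] at this
    omega
  have hnn : (n : ℝ) ^ 2 ≤ (2 ^ n) ^ 2 := pow_le_pow_left₀ hn0 h2n 2
  have h18 : (4 : ℝ) ^ 18 ≤ (2 ^ n) ^ 18 := pow_le_pow_left₀ (by norm_num) h4 18
  have h8 : (4 : ℝ) ^ 8 ≤ (2 ^ n) ^ 8 := pow_le_pow_left₀ (by norm_num) h4 8
  have hc0 : (0 : ℝ) < 2 ^ (20 * n ^ 3) := by positivity
  have hcp : (2 : ℝ) ^ (20 * n ^ 3) ≤ p := by
    refine le_trans ?_ hp
    nlinarith
  have hMp : ((2 : ℝ) ^ n) ^ 20 ≤ p := hM.trans hcp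
  have hp0 : 0 < p := lt_of_lt_of_le hc0 hcp
  refine ⟨?_, ?_, ?_, ?_⟩
  · refine le_trans ?_ hp
    apply mul_le_mul_of_nonneg_right _ (by linarith)
    refine le_trans ?_ hM
    calc (4 : ℝ) ^ 18 * (n : ℝ) ^ 2 ≤ (2 ^ n) ^ 18 * (2 ^ n) ^ 2 :=
          mul_le_mul h18 hnn (by positivity) (by positivity)
      _ = (2 ^ n) ^ 20 := by ring
  · refine le_trans ?_ hcp
    apply pow_le_pow_right₀ (by norm_num)
    have : n ^ 2 ≤ n ^ 3 := Nat.pow_le_pow_right hn1 (by norm_num)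
    omega
  · have hs : 616 * (n : ℝ) ^ 2 ≤ √p := by
      apply Real.le_sqrt_of_sq_le
      refine le_trans ?_ hMp
      have h1 : 616 * (n : ℝ) ^ 2 ≤ (2 ^ n) ^ 8 * (2 ^ n) ^ 2 := by
        apply mul_le_mul _ hnn (by positivity) (by positivity)
        refine le_trans ?_ h8
        norm_num
      calc (616 * (n : ℝ) ^ 2) ^ 2 ≤ ((2 ^ n) ^ 8 * (2 ^ n) ^ 2) ^ 2 :=
            pow_le_pow_left₀ (by positivity) h1 2
        _ = (2 ^ n) ^ 20 := by ring
    have hsp : √p * √p = p := Real.mul_self_sqrt hp0.le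
    have hs0 : 0 < √p := Real.sqrt_pos.2 hp0
    have hlog : log p ≤ 2 * √p := by
      have h1 : log (√p) = log p / 2 := Real.log_sqrt hp0.le
      have h2 : log (√p) ≤ √p - 1 := Real.log_le_sub_one_of_pos hs0
      linarith
    calc 308 * (n : ℝ) ^ 2 * log p ≤ 308 * (n : ℝ) ^ 2 * (2 * √p) :=
          mul_le_mul_of_nonneg_left hlog (by positivity)
      _ = (616 * (n : ℝ) ^ 2) * √p := by ring
      _ ≤ √p * √p := mul_le_mul_of_nonneg_right hs hs0.le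
      _ = p := hsp
  · rw [Real.le_log_iff_exp_le hp0]
    refine le_trans Real.exp_one_lt_d9.le ?_
    refine le_trans ?_ hMp
    calc (2.7182818286 : ℝ) ≤ 4 := by norm_num
      _ ≤ 4 ^ 20 := by norm_num
      _ ≤ (2 ^ n) ^ 20 := pow_le_pow_left₀ (by norm_num) h4 20

/-- part (1), natural numbers -/
lemma part1 (n P : ℕ) (hn : 2 ≤ n) (hP : 2 ^ (20 * n ^ 3) ≤ P) :
    2 * (P * (2 ^ (2 * n ^ 2 - 1) * P ^ (2 * n + 2) + 1) ^ (n - 1)) ≤ (P ^ (2 * n)) ^ n := by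
  obtain ⟨N, rfl⟩ : ∃ N, n = N + 1 := ⟨n - 1, by omega⟩
  rw [Nat.add_sub_cancel]
  have hP1 : 1 ≤ P := le_trans Nat.one_le_two_pow hP
  obtain ⟨K, hK⟩ : ∃ K, K = 2 * (N + 1) ^ 2 - 1 := ⟨_, rfl⟩
  have hK1 : K + 1 = 2 * (N + 1) ^ 2 := by
    have : 1 ≤ (N + 1) ^ 2 := Nat.one_le_pow _ _ (by omega)
    omega
  rw [← hK]
  have e1 : 2 ^ K * P ^ (2 * (N + 1) + 2) + 1 ≤ 2 ^ (K + 1) * P ^ (2 * (N + 1) + 2) := by
    have : 1 ≤ 2 ^ K * P ^ (2 * (N + 1) + 2) :=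
      Nat.mul_pos (by positivity) (Nat.one_le_pow _ _ hP1)
    calc 2 ^ K * P ^ (2 * (N + 1) + 2) + 1
        ≤ 2 ^ K * P ^ (2 * (N + 1) + 2) + 2 ^ K * P ^ (2 * (N + 1) + 2) :=
          Nat.add_le_add_left this _
      _ = 2 ^ (K + 1) * P ^ (2 * (N + 1) + 2) := by
          rw [pow_succ 2 K]; ring
  have e2 : 2 ^ ((K + 1) * N + 1) ≤ P := by
    refine le_trans ?_ hP
    apply Nat.pow_le_pow_right (by norm_num)
    rw [hK1]
    nlinarith [sq_nonneg (N : ℤ), Nat.zero_le N, Nat.zero_le (N ^ 2), Nat.zero_le (N ^ 3)]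
  calc 2 * (P * (2 ^ K * P ^ (2 * (N + 1) + 2) + 1) ^ N)
      ≤ 2 * (P * (2 ^ (K + 1) * P ^ (2 * (N + 1) + 2)) ^ N) := by
        apply Nat.mul_le_mul_left
        apply Nat.mul_le_mul_left
        exact Nat.pow_le_pow_left e1 N
    _ = 2 ^ ((K + 1) * N + 1) * P ^ (1 + (2 * (N + 1) + 2) * N) := by
        rw [mul_pow, ← pow_mul, ← pow_mul, pow_add, pow_add]
        ring
    _ ≤ P * P ^ (1 + (2 * (N + 1) + 2) * N) := Nat.mul_le_mul_right _ e2
    _ = (P ^ (2 * (N + 1))) ^ (N + 1) := by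
        rw [← pow_mul, ← pow_succ']
        congr 1
        ring

/-- part (2), real numbers -/
lemma part2 (n K k j : ℕ) (hn : 2 ≤ n) (hK1 : K + 1 = 2 * n ^ 2) (hkj : K = k + 1 + j)
    (p l B : ℝ) (hl : 1 ≤ l) (hp : (2 : ℝ) ^ (20 * n ^ 3) * l ≤ p)
    (hB1 : p ^ (16 * n ^ 2) ≤ B) (hB2 : B ≤ (p + 1) ^ (16 * n ^ 2)) :
    8 * (2 * ((n : ℝ) - 1) * p ^ (2 * n) * l) * p ^ (k + 2) ≤
      p ^ (k + 1) * (2 ^ j * p ^ (2 * n + 2)) ∧
    (n * log (p ^ (2 * n)) + (n * log (p ^ (2 * n)) +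
      2 ^ K * p ^ (2 * n + 2) * log (2 * B * p ^ (2 * n)) + n * p ^ (2 * n) * l * p) +
      2 ^ K * p ^ (2 * n + 2) * log (2 * B * p ^ (2 * n))) + 2 ≤
      p ^ (k + 1) * (2 ^ j * p ^ (2 * n + 2)) / 2 ∧
    (n * log (p ^ (2 * n)) + (n * log (p ^ (2 * n)) +
      2 ^ K * p ^ (2 * n + 2) * log (2 * B * p ^ (2 * n)) + n * p ^ (2 * n) * l * p) +
      2 ^ K * p ^ (2 * n + 2) * log (2 * B * p ^ (2 * n))) + n * p ^ (2 * n) * l * p ^ (k + 2) +
      log (2 * p ^ (k + 2) * p ^ (2 * n)) + (2 ^ j * p ^ (2 * n + 2)) * log (((n : ℝ) - 1) * l + 1) +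
      ((p ^ (k + 1) * (2 ^ j * p ^ (2 * n + 2))) ^ 2 +
        2 * (p ^ (k + 1) * (2 ^ j * p ^ (2 * n + 2)))) *
        log (2 * (p ^ (k + 1) * (2 ^ j * p ^ (2 * n + 2))) * p ^ (k + 2)) + 3 ≤
      (B - 1) * log 2 := by
  obtain ⟨h1, h2, h3, h4⟩ := big n hn p l hl hp
  have hnr : (2 : ℝ) ≤ n := by exact_mod_cast hn
  have hn2 : (4 : ℝ) ≤ (n : ℝ) ^ 2 := by nlinarith
  have hnl : (n : ℝ) * l ≤ (n : ℝ) ^ 2 * l := by
    apply mul_le_mul_of_nonneg_right _ (by linarith)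
    nlinarith
  have hn2l : (n : ℝ) ^ 2 ≤ (n : ℝ) ^ 2 * l := by nlinarith
  have h418 : (4 : ℝ) ^ 18 = 68719476736 := by norm_num
  rw [h418] at h1
  have h1' : 68719476736 * ((n : ℝ) ^ 2 * l) ≤ p := by linarith
  have hp16 : 16 * ((n : ℝ) * l) ≤ p := by linarith
  have hnp : 1000 * (n : ℝ) ^ 2 ≤ p := by linarith
  have hp1 : (1000 : ℝ) ≤ p := by nlinarith
  have hp0 : 0 < p := by linarith
  have hlp : log p ≤ p := by
    have := Real.log_le_sub_one_of_pos hp0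
    linarith
  -- the number `X = h₀`
  obtain ⟨X, hX⟩ : ∃ X : ℝ, X = 2 ^ K * p ^ (2 * n + 2) := ⟨_, rfl⟩
  obtain ⟨V, hV⟩ : ∃ V : ℝ, V = p ^ (k + 1) * (2 ^ j * p ^ (2 * n + 2)) := ⟨_, rfl⟩
  rw [← hX, ← hV]
  have hpn1 : (1 : ℝ) ≤ p ^ (2 * n + 2) := one_le_pow₀ (by linarith)
  have h2K1 : (1 : ℝ) ≤ 2 ^ K := one_le_pow₀ (by norm_num)
  have hXp : p ^ (2 * n + 2) ≤ X := by rw [hX]; nlinarith
  have hX1 : 1 ≤ X := hpn1.trans hXp
  have hVX : X * p / 2 ≤ V := by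
    rw [hV, hX, hkj]
    have e1 : (2 : ℝ) ^ k ≤ p ^ k := pow_le_pow_left₀ (by norm_num) (by linarith) k
    have e2 : (2 : ℝ) ^ (k + 1 + j) * p ^ (2 * n + 2) * p / 2 =
      (2 ^ k) * (p * (2 ^ j * p ^ (2 * n + 2))) := by
      rw [pow_add, pow_add, pow_one]; ring
    have e3 : p ^ (k + 1) * (2 ^ j * p ^ (2 * n + 2)) =
      p ^ k * (p * (2 ^ j * p ^ (2 * n + 2))) := by
      rw [pow_add, pow_one]; ring
    rw [e2, e3]
    exact mul_le_mul_of_nonneg_right e1 (by positivity)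
  have hV0 : 0 ≤ V := by rw [hV]; positivity
  -- (a)
  have ha : 8 * (2 * ((n : ℝ) - 1) * p ^ (2 * n) * l) * p ^ (k + 2) ≤ V := by
    have e1 : 8 * (2 * ((n : ℝ) - 1) * p ^ (2 * n) * l) * p ^ (k + 2) ≤
        (16 * (n * l)) * (p ^ (2 * n) * p ^ (k + 2)) := by
      have : 8 * (2 * ((n : ℝ) - 1) * p ^ (2 * n) * l) * p ^ (k + 2) =
        (16 * (((n : ℝ) - 1) * l)) * (p ^ (2 * n) * p ^ (k + 2)) := by ring
      rw [this]
      apply mul_le_mul_of_nonneg_right _ (by positivity)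
      nlinarith
    refine e1.trans ?_
    have e2 : (16 * ((n : ℝ) * l)) * (p ^ (2 * n) * p ^ (k + 2)) ≤
        p * (p ^ (2 * n) * p ^ (k + 2)) := mul_le_mul_of_nonneg_right hp16 (by positivity)
    refine e2.trans ?_
    have e3 : p * (p ^ (2 * n) * p ^ (k + 2)) = 1 * (p ^ (k + 1) * p ^ (2 * n + 2)) := by
      rw [pow_add p k 2, pow_add p k 1, pow_add p (2 * n) 2]; ring
    rw [e3, hV]
    have e4 : p ^ (k + 1) * (2 ^ j * p ^ (2 * n + 2)) =
      2 ^ j * (p ^ (k + 1) * p ^ (2 * n + 2)) := by ring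
    rw [e4]
    exact mul_le_mul_of_nonneg_right (one_le_pow₀ (by norm_num)) (by positivity)
  -- logarithms
  have hlogL : log (p ^ (2 * n)) = 2 * n * log p := by
    rw [Real.log_pow]; push_cast; ring
  have hB0 : 0 < B := lt_of_lt_of_le (by positivity) hB1
  have hlogB : log (2 * B * p ^ (2 * n)) ≤ 35 * (n : ℝ) ^ 2 * log p := by
    have e1 : 2 * B * p ^ (2 * n) ≤ p ^ (1 + 2 * (16 * n ^ 2) + 2 * n) := by
      have e2 : (p + 1) ^ (16 * n ^ 2) ≤ p ^ (2 * (16 * n ^ 2)) := by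
        rw [pow_mul p 2]
        apply pow_le_pow_left₀ (by linarith)
        nlinarith
      rw [pow_add, pow_add, pow_one]
      apply mul_le_mul_of_nonneg_right _ (by positivity)
      exact mul_le_mul (by linarith) (hB2.trans e2) hB0.le hp0.le
    have e3 : log (2 * B * p ^ (2 * n)) ≤ log (p ^ (1 + 2 * (16 * n ^ 2) + 2 * n)) :=
      Real.log_le_log (by positivity) e1
    rw [Real.log_pow] at e3
    refine e3.trans ?_
    apply mul_le_mul_of_nonneg_right _ (by linarith)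
    push_cast
    nlinarith
  -- (b)
  obtain ⟨W, hW⟩ : ∃ W : ℝ, W = n * log (p ^ (2 * n)) + (n * log (p ^ (2 * n)) +
      X * log (2 * B * p ^ (2 * n)) + n * p ^ (2 * n) * l * p) +
      X * log (2 * B * p ^ (2 * n)) := ⟨_, rfl⟩
  rw [← hW]
  have hb : W + 2 ≤ V / 2 := by
    have e1 : X * log (2 * B * p ^ (2 * n)) ≤ X * (35 * (n : ℝ) ^ 2 * log p) :=
      mul_le_mul_of_nonneg_left hlogB (by linarith)
    have hq : 1 ≤ (n : ℝ) ^ 2 * log p := by nlinarith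
    have e2 : n * log (p ^ (2 * n)) ≤ X * (2 * ((n : ℝ) ^ 2 * log p)) := by
      rw [hlogL]
      have : n * (2 * n * log p) = 1 * (2 * ((n : ℝ) ^ 2 * log p)) := by ring
      rw [this]
      exact mul_le_mul_of_nonneg_right hX1 (by linarith)
    have e3 : n * p ^ (2 * n) * l * p ≤ X * ((n : ℝ) ^ 2 * log p) := by
      have e4 : n * p ^ (2 * n) * l * p = (n * l) * (p ^ (2 * n) * p) := by ring
      have e5 : (n * l) * (p ^ (2 * n) * p) ≤ p * (p ^ (2 * n) * p) := by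
        apply mul_le_mul_of_nonneg_right _ (by positivity)
        linarith
      have e6 : p * (p ^ (2 * n) * p) = p ^ (2 * n + 2) := by
        rw [pow_add]; ring
      rw [e4]
      refine e5.trans ?_
      rw [e6]
      nlinarith
    have e7 : (2 : ℝ) ≤ X * (2 * ((n : ℝ) ^ 2 * log p)) := by nlinarith
    have e8 : W + 2 ≤ X * (77 * (n : ℝ) ^ 2 * log p) := by
      rw [hW]
      nlinarith
    refine e8.trans ?_
    have e9 : X * (77 * (n : ℝ) ^ 2 * log p) ≤ X * (p / 4) := by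
      apply mul_le_mul_of_nonneg_left _ (by linarith)
      linarith
    linarith
  refine ⟨ha, hb, ?_⟩
  -- (c)
  obtain ⟨Z, hZ⟩ : ∃ Z : ℝ, Z = p ^ (2 * n ^ 2 + 2 * n + 2) := ⟨_, rfl⟩
  have hjp : (2 : ℝ) ^ j ≤ p := by
    refine le_trans ?_ h2
    apply pow_le_pow_right₀ (by norm_num)
    omega
  have hZ1 : 1 ≤ Z := by rw [hZ]; exact one_le_pow₀ (by linarith)
  have hpow : ∀ a : ℕ, a ≤ 2 * n ^ 2 + 2 * n + 2 → p ^ a ≤ Z := by
    intro a ha
    rw [hZ]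
    exact pow_le_pow_right₀ (by linarith) ha
  have hVZ : V ≤ Z := by
    rw [hV]
    calc p ^ (k + 1) * (2 ^ j * p ^ (2 * n + 2)) ≤ p ^ (k + 1) * (p * p ^ (2 * n + 2)) := by
          apply mul_le_mul_of_nonneg_left _ (by positivity)
          exact mul_le_mul_of_nonneg_right hjp (by positivity)
      _ = p ^ (k + 2 * n + 4) := by
          rw [← pow_succ', ← pow_add]
          congr 1
          ring
      _ ≤ Z := hpow _ (by omega)
  have t1 : W ≤ Z := by linarith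
  have t2 : n * p ^ (2 * n) * l * p ^ (k + 2) ≤ Z := by
    have e4 : n * p ^ (2 * n) * l * p ^ (k + 2) = (n * l) * (p ^ (2 * n) * p ^ (k + 2)) := by ring
    have e5 : (n * l) * (p ^ (2 * n) * p ^ (k + 2)) ≤ p * (p ^ (2 * n) * p ^ (k + 2)) := by
      apply mul_le_mul_of_nonneg_right _ (by positivity)
      linarith
    have e6 : p * (p ^ (2 * n) * p ^ (k + 2)) = p ^ (2 * n + k + 3) := by
      rw [← pow_add, ← pow_succ']
      congr 1
    rw [e4]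
    refine e5.trans ?_
    rw [e6]
    exact hpow _ (by omega)
  have t3 : log (2 * p ^ (k + 2) * p ^ (2 * n)) ≤ Z := by
    have e0 : 0 < 2 * p ^ (k + 2) * p ^ (2 * n) := by positivity
    have e1 := Real.log_le_sub_one_of_pos e0
    have e2 : 2 * p ^ (k + 2) * p ^ (2 * n) ≤ p * p ^ (k + 2) * p ^ (2 * n) := by
      apply mul_le_mul_of_nonneg_right _ (by positivity)
      apply mul_le_mul_of_nonneg_right _ (by positivity)
      linarith
    have e3 : p * p ^ (k + 2) * p ^ (2 * n) = p ^ (k + 3 + 2 * n) := by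
      rw [← pow_succ', ← pow_add]
    have e4 := hpow (k + 3 + 2 * n) (by omega)
    linarith
  have t4 : (2 ^ j * p ^ (2 * n + 2)) * log (((n : ℝ) - 1) * l + 1) ≤ Z := by
    have e0 : 0 ≤ ((n : ℝ) - 1) * l := mul_nonneg (by linarith) (by linarith)
    have e1 : log (((n : ℝ) - 1) * l + 1) ≤ p := by
      have e2 := Real.log_le_sub_one_of_pos (show 0 < ((n : ℝ) - 1) * l + 1 by linarith)
      have e3 : ((n : ℝ) - 1) * l ≤ n * l := by
        apply mul_le_mul_of_nonneg_right _ (by linarith)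
        linarith
      linarith
    calc (2 ^ j * p ^ (2 * n + 2)) * log (((n : ℝ) - 1) * l + 1)
        ≤ (2 ^ j * p ^ (2 * n + 2)) * p := mul_le_mul_of_nonneg_left e1 (by positivity)
      _ ≤ (2 ^ j * p ^ (2 * n + 2)) * p ^ (k + 1) := by
          apply mul_le_mul_of_nonneg_left _ (by positivity)
          have := pow_le_pow_right₀ (show 1 ≤ p by linarith) (show 1 ≤ k + 1 by omega)
          rwa [pow_one] at this
      _ = V := by rw [hV]; ring
      _ ≤ Z := hVZ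
  have t5 : (V ^ 2 + 2 * V) * log (2 * V * p ^ (k + 2)) ≤ 3 * Z ^ 2 * p ^ 2 := by
    have e0 : log (2 * V * p ^ (k + 2)) ≤ p ^ 2 := by
      have hVpos : 0 < V := by
        rw [hV]; positivity
      have e1 : 2 * V * p ^ (k + 2) ≤ p ^ (4 * n ^ 2 + 2 * n + 3) := by
        calc 2 * V * p ^ (k + 2) ≤ p * Z * p ^ (2 * n ^ 2) := by
              apply mul_le_mul _ _ (by positivity) (by positivity)
              · exact mul_le_mul (by linarith) hVZ hV0 hp0.le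
              · exact pow_le_pow_right₀ (by linarith) (by omega)
          _ = p ^ (4 * n ^ 2 + 2 * n + 3) := by
              rw [hZ, ← pow_succ', ← pow_add]
              congr 1
              ring
      have e2 := Real.log_le_log (by positivity) e1
      rw [Real.log_pow] at e2
      refine e2.trans ?_
      have e3 : ((4 * n ^ 2 + 2 * n + 3 : ℕ) : ℝ) ≤ p := by
        push_cast
        nlinarith
      calc ((4 * n ^ 2 + 2 * n + 3 : ℕ) : ℝ) * log p ≤ p * p :=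
            mul_le_mul e3 hlp (by linarith) hp0.le
        _ = p ^ 2 := by ring
    have e4 : V ^ 2 + 2 * V ≤ 3 * Z ^ 2 := by nlinarith
    exact mul_le_mul e4 e0 (Real.log_nonneg (by
      have : 1 ≤ V := by
        have : 1 ≤ X * p / 2 := by nlinarith
        linarith
      have h5 : 1 ≤ p ^ (k + 2) := one_le_pow₀ (by linarith)
      nlinarith)) (by positivity)
  have t6 : 4 * Z + 3 * Z ^ 2 * p ^ 2 + 3 ≤ p ^ (4 * n ^ 2 + 4 * n + 7) := by
    have e1 : Z ≤ Z ^ 2 * p ^ 2 := by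
      have : 1 ≤ Z * p ^ 2 := by nlinarith
      nlinarith
    have e2 : 4 * Z + 3 * Z ^ 2 * p ^ 2 + 3 ≤ 10 * (Z ^ 2 * p ^ 2) := by nlinarith
    have e3 : 10 * (Z ^ 2 * p ^ 2) ≤ p * (Z ^ 2 * p ^ 2) :=
      mul_le_mul_of_nonneg_right (by linarith) (by positivity)
    have e4 : p * (Z ^ 2 * p ^ 2) = p ^ (4 * n ^ 2 + 4 * n + 7) := by
      rw [hZ, ← pow_mul, ← pow_add, ← pow_succ']
      congr 1
      ring
    linarith
  have t7 : p ^ (4 * n ^ 2 + 4 * n + 7) ≤ (B - 1) * log 2 := by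
    have e1 : p ^ (4 * n ^ 2 + 4 * n + 7) * p ≤ p ^ (16 * n ^ 2) := by
      rw [← pow_succ]
      apply pow_le_pow_right₀ (by linarith)
      nlinarith
    have e2 : (1 : ℝ) ≤ p ^ (4 * n ^ 2 + 4 * n + 7) := one_le_pow₀ (by linarith)
    have e3 : (1 : ℝ) / 2 ≤ log 2 := by
      have := Real.log_two_gt_d9
      linarith
    have e4 : p ^ (4 * n ^ 2 + 4 * n + 7) * 4 ≤ p ^ (4 * n ^ 2 + 4 * n + 7) * p :=
      mul_le_mul_of_nonneg_left (by linarith) (by linarith)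
    have e5 : (B - 1) * (1 / 2) ≤ (B - 1) * log 2 :=
      mul_le_mul_of_nonneg_left e3 (by linarith)
    linarith
  linarith

theorem par : ParStmt := by
  intro N P B l hN hl hP hB1 hB2
  have hPr : (2 : ℝ) ^ (20 * (N + 1) ^ 3) ≤ P := by
    have : (0 : ℝ) < (2 : ℝ) ^ (20 * (N + 1) ^ 3) := by positivity
    nlinarith
  have hPn : 2 ^ (20 * (N + 1) ^ 3) ≤ P := by exact_mod_cast hPr
  constructor
  · have := part1 (N + 1) P (by omega) hPn
    rwa [Nat.add_sub_cancel] at this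
  · intro k hk
    obtain ⟨K, hK⟩ : ∃ K, K = 2 * (N + 1) ^ 2 - 1 := ⟨_, rfl⟩
    have hK1 : K + 1 = 2 * (N + 1) ^ 2 := by
      have : 1 ≤ (N + 1) ^ 2 := Nat.one_le_pow _ _ (by omega)
      omega
    rw [← hK] at hk ⊢
    obtain ⟨j, hj⟩ : ∃ j, j = K - k - 1 := ⟨_, rfl⟩
    rw [← hj]
    have hmain := part2 (N + 1) K k j (by omega) hK1 (by omega) (P : ℝ) l (B : ℝ) hl hP
      (by exact_mod_cast hB1) (by exact_mod_cast hB2)
    unfold StpIneq logC
    push_cast at hmain ⊢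
    rw [add_sub_cancel_right] at hmain
    exact hmain

end Pool.Agent.BKW.H74
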